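import Pool.Agent.W312.TP.Stm
import Pool.Agent.W312.TP.Mem

/-! MP_b5064f_lc: the core is well formed and connected. -/

set_option autoImplicit false

namespace Pool.Agent.W371.TP

open Pool.Agent.H673R2.Ts Pool.Agent.W312.TP

theorem blk {a i j i' j' : ℕ} (hj : j < a) (hj' : j' < a) (h : a * i + j = a * i' + j') :
    i = i' ∧ j = j' := by
  rcases Nat.lt_trichotomy i i' with h1 | h1 | h1
  · have : a * (i + 1) ≤ a * i' := Nat.mul_le_mul_left _ h1
    rw [Nat.mul_succ] at this
    omega
  · subst h1; exact ⟨rfl, by omega⟩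
  · have : a * (i' + 1) ≤ a * i := Nat.mul_le_mul_left _ h1
    rw [Nat.mul_succ] at this
    omega

theorem blk_lt {a i j p : ℕ} (hj : j < a) (hi : i < p) : a * i + j < a * p := by
  have : a * (i + 1) ≤ a * p := Nat.mul_le_mul_left _ hi
  rw [Nat.mul_succ] at this
  omega

theorem nodup_cliqueE (n : ℕ) : (cliqueE n).Nodup := by
  unfold cliqueE
  rw [List.nodup_flatMap]
  refine ⟨fun j _ => ?_, ?_⟩
  · exact List.Nodup.map (fun a b h => (Prod.mk.inj h).1) List.nodup_range
  · refine List.nodup_range.imp_of_mem ?_
    intro a b _ _ hab z hz1 hz2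
    rw [List.mem_map] at hz1 hz2
    obtain ⟨i, _, rfl⟩ := hz1
    obtain ⟨i', _, h⟩ := hz2
    exact hab (Prod.mk.inj h).2.symm

theorem nodup_opE {A : List ℕ} {n m : ℕ} (hA : A.Nodup) (hlt : ∀ x ∈ A, x < n) :
    (opE A n m).Nodup := by
  unfold opE
  rw [List.nodup_flatMap]
  refine ⟨fun j _ => ?_, ?_⟩
  · refine List.Nodup.map (fun a b h => (Prod.mk.inj h).1) ?_
    rw [List.nodup_append]
    refine ⟨hA, List.Nodup.map (fun a b h => by simpa using h) List.nodup_range, ?_⟩
    intro a ha b hb hab
    rw [List.mem_map] at hb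
    obtain ⟨i, _, rfl⟩ := hb
    have := hlt a ha
    omega
  · refine List.nodup_range.imp_of_mem ?_
    intro a b _ _ hab z hz1 hz2
    rw [List.mem_map] at hz1 hz2
    obtain ⟨i, _, rfl⟩ := hz1
    obtain ⟨i', _, h⟩ := hz2
    have := (Prod.mk.inj h).2
    omega

theorem elts_mem {gs : List Gad} {g : Gad} (hg : g ∈ gs) :
    g.2.1 ∈ elts gs ∧ g.2.2.1 ∈ elts gs ∧ g.2.2.2 ∈ elts gs := by
  unfold elts
  simp only [List.mem_flatMap]
  exact ⟨⟨g, hg, by simp⟩, ⟨g, hg, by simp⟩, ⟨g, hg, by simp⟩⟩

theorem el_lt {t p e : ℕ} (h : e < 2 * p) : el t e < nC t p := by unfold el nC; omega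

theorem gad_nodup {t : ℕ} {gs : List Gad} (h : (elts gs).Nodup) {g : Gad} (hg : g ∈ gs) :
    [el t g.2.1, el t g.2.2.1, el t g.2.2.2].Nodup := by
  unfold elts at h
  rw [List.nodup_flatMap] at h
  have h1 := h.1 g hg
  have : [el t g.2.1, el t g.2.2.1, el t g.2.2.2] = [g.2.1, g.2.2.1, g.2.2.2].map (el t) := rfl
  rw [this]
  refine h1.map ?_
  intro a b hab
  unfold el at hab
  omega

theorem nodup_coreE {t p : ℕ} {gs : List Gad} (hok : POk p gs) : (coreE t p gs).Nodup := by
  have hb : ∀ i, nC t p ≤ hBase t p i := fun i => by unfold hBase; omega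
  have ha : ∀ i, nC t p + (rr t - 2) * p ≤ aBase t p i := fun i => by unfold aBase; omega
  unfold coreE
  rw [List.nodup_append, List.nodup_append]
  refine ⟨⟨nodup_cliqueE _, ?_, ?_⟩, ?_, ?_⟩
  · rw [List.nodup_flatMap]
    refine ⟨fun i hi => nodup_opE ?_ ?_, ?_⟩
    · have : el t (2 * i) ≠ el t (2 * i + 1) := by unfold el; omega
      simp [this]
    · intro x hx
      rw [List.mem_range] at hi
      have h1 : x < nC t p := by
        simp only [List.mem_cons, List.not_mem_nil, or_false] at hx
        rcases hx with rfl | rfl <;> exact el_lt (by omega)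
      exact lt_of_lt_of_le h1 (hb i)
    · refine List.nodup_range.imp_of_mem ?_
      intro i i' _ _ hne z hz1 hz2
      rw [mem_opE] at hz1 hz2
      obtain ⟨j, hj, h1, _⟩ := hz1
      obtain ⟨j', hj', h1', _⟩ := hz2
      unfold hBase at h1 h1'
      exact hne (blk hj hj' (by omega)).1
  · intro z hz1 z' hz2 hzz
    subst hzz
    rw [mem_cliqueE] at hz1
    rw [List.mem_flatMap] at hz2
    obtain ⟨i, _, h⟩ := hz2
    rw [mem_opE] at h
    obtain ⟨j, _, h1, _⟩ := h
    have := hb i
    omega
  · rw [List.nodup_flatMap]
    refine ⟨fun q hq => nodup_opE ?_ ?_, ?_⟩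
    · rw [mem_zipIdx_gad] at hq
      exact gad_nodup hok.1 (List.mem_of_getElem? hq)
    · intro x hx
      rw [mem_zipIdx_gad] at hq
      have hm := elts_mem (List.mem_of_getElem? hq)
      have h1 : x < nC t p := by
        simp only [List.mem_cons, List.not_mem_nil, or_false] at hx
        rcases hx with rfl | rfl | rfl
        · exact el_lt (hok.2 _ hm.1)
        · exact el_lt (hok.2 _ hm.2.1)
        · exact el_lt (hok.2 _ hm.2.2)
      have := ha q.2
      omega
    · rw [List.pairwise_iff_getElem]
      intro i i' hi hi' hlt z hz1 hz2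
      rw [List.getElem_zipIdx] at hz1 hz2
      simp only [zero_add] at hz1 hz2
      rw [mem_opE] at hz1 hz2
      obtain ⟨j, hj, h1, _⟩ := hz1
      obtain ⟨j', hj', h1', _⟩ := hz2
      unfold aBase at h1 h1'
      have h5 : kk t * i + j = kk t * i' + j' := by
        have e1 : kk t * i + j = z.2 - (nC t p + (rr t - 2) * p) := by
          rw [h1, Nat.add_assoc _ (kk t * i) j, Nat.add_sub_cancel_left]
        have e2 : kk t * i' + j' = z.2 - (nC t p + (rr t - 2) * p) := by
          rw [h1', Nat.add_assoc _ (kk t * i') j', Nat.add_sub_cancel_left]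
        rw [e1, e2]
      have := (blk hj hj' h5).1
      omega
  · intro z hz1 z' hz2 hzz
    subst hzz
    rw [List.mem_append, mem_cliqueE, List.mem_flatMap] at hz1
    rw [List.mem_flatMap] at hz2
    obtain ⟨q, _, h⟩ := hz2
    rw [mem_opE] at h
    obtain ⟨j, _, h1, _⟩ := h
    have := ha q.2
    rcases hz1 with h2 | ⟨i, hi, h2⟩
    · omega
    · rw [mem_opE] at h2
      obtain ⟨j', hj', h3, _⟩ := h2
      rw [List.mem_range] at hi
      have := blk_lt hj' hi
      unfold hBase at h3
      omega

theorem proof_COREOK : COREOK := by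
  intro t p gs ht hok
  have hb : ∀ i, nC t p ≤ hBase t p i := fun i => by unfold hBase; omega
  have ha : ∀ i, nC t p + (rr t - 2) * p ≤ aBase t p i := fun i => by unfold aBase; omega
  have hgl : ∀ {i : ℕ} {g : Gad}, gs[i]? = some g → i < gs.length := by
    intro i g h
    rw [List.getElem?_eq_some_iff] at h
    exact h.1
  have hel : ∀ {i : ℕ} {g : Gad}, gs[i]? = some g → el t g.2.1 < nC t p ∧ el t g.2.2.1 < nC t p ∧
      el t g.2.2.2 < nC t p := by
    intro i g h
    have hm := elts_mem (List.mem_of_getElem? h)
    exact ⟨el_lt (hok.2 _ hm.1), el_lt (hok.2 _ hm.2.1), el_lt (hok.2 _ hm.2.2)⟩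
  have hnC : ∀ i, nC t p ≤ aBase t p i := fun i => by have := ha i; omega
  have hlast : ∀ {i j}, i < gs.length → j < kk t → aBase t p i + j < aBase t p gs.length := by
    intro i j hi hj
    have := blk_lt hj hi
    unfold aBase
    omega
  have hpair : ∀ {i j}, i < p → j < rr t - 2 → hBase t p i + j < nC t p + (rr t - 2) * p := by
    intro i j hi hj
    have := blk_lt hj hi
    unfold hBase
    omega
  refine ⟨⟨nodup_coreE hok, ?_, ?_⟩, ?_⟩
  · intro z hz
    show z.1 < z.2 ∧ z.2 < aBase t p gs.length
    have hz' : z ∈ coreE t p gs := hz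
    rw [mem_coreE] at hz'
    rcases hz' with ⟨h1, h2⟩ | ⟨i, hi, j, hj, h1, h2⟩ | ⟨i, g, hg, j, hj, h1, h2⟩
    · exact ⟨h1, lt_of_lt_of_le h2 (hnC _)⟩
    · have h3 := hpair hi hj
      have h4 := ha gs.length
      refine ⟨?_, by omega⟩
      have h5 := hb i
      have h6 : el t (2 * i) < nC t p := el_lt (by omega)
      have h7 : el t (2 * i + 1) < nC t p := el_lt (by omega)
      rcases h2 with h2 | h2 | h2 <;> omega
    · have h3 := hlast (hgl hg) hj
      refine ⟨?_, by omega⟩
      have h5 := hnC i
      obtain ⟨h6, h7, h8⟩ := hel hg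
      rcases h2 with h2 | h2 | h2 | h2 <;> omega
  · intro q hq
    have hq' : q ∈ coreS t p gs := hq
    show (q.2.1.1, q.2.2.1) ∈ coreE t p gs ∨ (q.2.2.1, q.2.1.1) ∈ coreE t p gs
    rw [mem_coreS] at hq'
    rcases hq' with ⟨j, hj, rfl⟩ | ⟨i, hi, j, hj, rfl⟩ | ⟨i, hi, rfl⟩ | ⟨i, g, hg, j, hj, h0, rfl⟩
    · left
      rw [mem_coreE]
      left
      simp only
      unfold nC
      omega
    · left
      rw [mem_coreE]
      right; left
      refine ⟨i, hi, j, hj, rfl, ?_⟩
      simp only [lastEnd_fst]
      split_ifs with h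
      · left; rfl
      · right; right; omega
    · simp only [lastEnd_fst]
      split_ifs with h
      · left
        rw [mem_coreE]
        left
        simp only
        refine ⟨by unfold el; omega, el_lt (by omega)⟩
      · right
        rw [mem_coreE]
        right; left
        refine ⟨i, hi, rr t - 3, by omega, ?_, Or.inr (Or.inl rfl)⟩
        simp only
        omega
    · left
      rw [mem_coreE]
      right; right
      refine ⟨i, g, hg, j, hj, rfl, ?_⟩
      simp only [lastEnd_fst]
      split_ifs with h
      · left; rfl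
      · right; right; right; omega
  · -- connectedness
    set N := aBase t p gs.length with hN
    have h0N : 0 < N := lt_of_lt_of_le (by unfold nC; omega) (hnC gs.length)
    let r : Fin N := ⟨0, h0N⟩
    have hadj : ∀ (x y : Fin N), ((x : ℕ), (y : ℕ)) ∈ coreE t p gs → x ≠ y →
        (graphOf (instSt (core t p gs))).Adj x y := by
      intro x y h hne
      exact (SimpleGraph.fromRel_adj _ _ _).2 ⟨hne, Or.inl h⟩
    have hsmall : ∀ x : Fin N, (x : ℕ) < nC t p →
        (graphOf (instSt (core t p gs))).Reachable r x := by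
      intro x hx
      rcases Nat.eq_zero_or_pos (x : ℕ) with h | h
      · have : x = r := Fin.ext h
        rw [this]
      · refine (hadj r x ?_ ?_).reachable
        · rw [mem_coreE]; left; exact ⟨h, hx⟩
        · intro e
          rw [← e] at h
          exact absurd h (lt_irrefl _)
    have hall : ∀ x : Fin N, (graphOf (instSt (core t p gs))).Reachable r x := by
      intro x
      rcases Nat.lt_or_ge (x : ℕ) (nC t p) with h | h
      · exact hsmall x h
      · have hx := x.2
        rcases Nat.lt_or_ge (x : ℕ) (nC t p + (rr t - 2) * p) with h2 | h2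
        · have hr : 0 < rr t - 2 := by
            rcases Nat.eq_zero_or_pos (rr t - 2) with h3 | h3
            · rw [h3] at h2; omega
            · exact h3
          set i := (x - nC t p) / (rr t - 2) with hi
          set j := (x - nC t p) % (rr t - 2) with hj
          have hij : (rr t - 2) * i + j = x - nC t p := Nat.div_add_mod _ _
          have hjl : j < rr t - 2 := Nat.mod_lt _ hr
          have hil : i < p := by
            by_contra hc
            have : (rr t - 2) * p ≤ (rr t - 2) * i := Nat.mul_le_mul_left _ (by omega)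
            omega
          have hy : el t (2 * i) < nC t p := el_lt (by omega)
          let y : Fin N := ⟨el t (2 * i), lt_of_lt_of_le hy (hnC _)⟩
          refine (hsmall y hy).trans (hadj y x ?_ ?_).reachable
          · rw [mem_coreE]
            right; left
            refine ⟨i, hil, j, hjl, ?_, Or.inl rfl⟩
            show (x : ℕ) = hBase t p i + j
            unfold hBase
            omega
          · intro e
            have : (y : ℕ) = x := congrArg Fin.val e
            have h5 : (y : ℕ) = el t (2 * i) := rfl
            omega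
        · have hk := (@kk_le t).1
          set i := (x - (nC t p + (rr t - 2) * p)) / (kk t) with hi
          set j := (x - (nC t p + (rr t - 2) * p)) % (kk t) with hj
          have hij : (kk t) * i + j = x - (nC t p + (rr t - 2) * p) := Nat.div_add_mod _ _
          have hjl : j < kk t := Nat.mod_lt _ hk
          have hil : i < gs.length := by
            by_contra hc
            have h3 : (kk t) * gs.length ≤ (kk t) * i := Nat.mul_le_mul_left _ (by omega)
            have h4 : N = nC t p + (rr t - 2) * p + kk t * gs.length := rfl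
            omega
          have hg : gs[i]? = some gs[i] := List.getElem?_eq_getElem hil
          have hy := (hel hg).1
          let y : Fin N := ⟨el t gs[i].2.1, lt_of_lt_of_le hy (hnC _)⟩
          refine (hsmall y hy).trans (hadj y x ?_ ?_).reachable
          · rw [mem_coreE]
            right; right
            refine ⟨i, gs[i], hg, j, hjl, ?_, Or.inl rfl⟩
            show (x : ℕ) = aBase t p i + j
            unfold aBase
            omega
          · intro e
            have : (y : ℕ) = x := congrArg Fin.val e
            have h5 : (y : ℕ) = el t gs[i].2.1 := rfl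
            omega
    haveI : Nonempty (Fin (instSt (core t p gs)).1) := ⟨r⟩
    exact SimpleGraph.Connected.mk fun x y => (hall x).symm.trans (hall y)

end Pool.Agent.W371.TP
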