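import Pool.Agent.W312.TP.Stm
import Pool.Agent.H673R2.TsTree

/-! MP_b5064f_lc: projection to a path in a tree. -/

set_option autoImplicit false

namespace Pool.Agent.W371.TP

open Pool.Agent.H673R2.Ts

theorem proof_PROJ : Pool.Agent.W312.TP.PROJ := by
  intro V T hT p L
  induction L with
  | zero =>
    intro _ _ x
    refine ⟨0, le_rfl, fun j hj => ?_⟩
    obtain rfl : j = 0 := by omega
    simp
  | succ L ih =>
    intro hadj hne x
    obtain ⟨i, hi, h⟩ := ih (fun j hj => hadj j (by omega)) (fun j hj => hne j (by omega)) x
    rcases hT.dist_eq_dist_add_one_of_adj x (hadj L (by omega)) with h1 | h1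
    · have hiL : i = L := by
        by_contra hne'
        have hlt : i < L := by omega
        have a1 := (h L le_rfl).2 (by omega)
        have a2 := (h (L-1) (by omega)).2 (by omega)
        have h3 : T.dist x (p L) = T.dist x (p (L-1)) + 1 := by omega
        have hadj' : T.Adj (p (L-1)) (p L) := by
          have := hadj (L-1) (by omega)
          rwa [Nat.sub_add_cancel (by omega)] at this
        have hne2 : p (L - 1) ≠ p (L + 1) := by
          have := hne (L-1) (by omega)
          rwa [show L - 1 + 2 = L + 1 by omega] at this
        have h4 := dist_next hT hadj' (hadj L (by omega)) hne2 h3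
        omega
      subst hiL
      refine ⟨i+1, le_rfl, fun j hj => ⟨fun _ => ?_, fun hij => ?_⟩⟩
      · rcases Nat.eq_or_lt_of_le hj with rfl | hlt
        · simp
        · have := (h j (by omega)).1 (by omega)
          omega
      · obtain rfl : j = i+1 := by omega
        simp
    · refine ⟨i, by omega, fun j hj => ?_⟩
      rcases Nat.eq_or_lt_of_le hj with rfl | hlt
      · refine ⟨fun h' => by omega, fun _ => ?_⟩
        have := (h L le_rfl).2 hi
        omega
      · exact h j (by omega)

end Pool.Agent.W371.TP
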